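import Pool.Agent.Helper33.C2.Pre

/-!
PROJECT C2, packet SUBST: substitution of a tangle into a channel of a POS kernel.
-/

namespace Pool.Agent.Helper70.C2

open LaurentPolynomial Pool.Agent.Helper52.C2

section basics

variable {J : Type} [DecidableEq J] (Φ : (J → Tg) → ℝ[T;T⁻¹])

/-- the two orders of a product have the same closure -/
theorem mul_F_comm (A B : Tg) : (A.mul B).F = (B.mul A).F := by
  have h1 := A.rel
  have h2 := B.rel
  have e : A.F * (B.F * (1 - T 1)) = B.F * (A.F * (1 - T 1)) := by ring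
  rw [h1, h2] at e
  change A.R * B.F + A.F * B.L = B.R * A.F + B.F * A.L
  linear_combination e

theorem val (hA : Affine Φ) (b : J → Tg) (k : J) (S : Tg) :
    Φ (Function.update b k S) = (S.mul (slot Φ b k)).F := hA b k S

theorem valU (hA : Affine Φ) (hCH : GoalCoefH) (b : J → Tg) (k : J) (m j : ℤ) :
    (Φ (Function.update b k (U m))).coeff j = (slot Φ b k).h m j := by
  rw [val Φ hA, hCH]

/-- all assignments of nonnegative tangles give nonnegative coefficients -/
theorem val_nonneg (hA : Affine Φ) (hS : SlotNonneg Φ) (hNN : GoalNonneg) (k : J) (c : J → Tg)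
    (hc : ∀ l, (c l).Nonneg) (i : ℤ) : 0 ≤ (Φ c).coeff i := by
  have h := val Φ hA c k (c k)
  rw [Function.update_eq_self] at h
  rw [h]
  exact (hNN.1 _ _ (hc k) (hS c k hc)).F i

/-- lowering a ring channel by one, first comparison -/
theorem low1 (hA : Affine Φ) (hS : SlotNonneg Φ) (hCH : GoalCoefH) (b : J → Tg) (e : J)
    (hb : ∀ l, (b l).Nonneg) (m i : ℤ) :
    (Φ (Function.update b e (U (m - 1)))).coeff i ≤ (Φ (Function.update b e (U m))).coeff i := by
  rw [valU Φ hA hCH, valU Φ hA hCH]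
  have hs := (hS b e hb).R (i - m + 1)
  rw [← Pool.Agent.Helper33.C2.pre_sub_step] at hs
  unfold Tg.h
  have e1 : i - (m - 1) = i - m + 1 := by ring
  have e2 : i - m + 1 - 1 = i - m := by ring
  rw [e1]
  rw [e2] at hs
  linarith

/-- lowering a ring channel by one, second comparison -/
theorem low2 (hA : Affine Φ) (hS : SlotNonneg Φ) (hCH : GoalCoefH) (b : J → Tg) (e : J)
    (hb : ∀ l, (b l).Nonneg) (m i : ℤ) :
    (Φ (Function.update b e (U (m - 1)))).coeff i ≤
      (Φ (Function.update b e (U m))).coeff (i + 1) := by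
  rw [valU Φ hA hCH, valU Φ hA hCH]
  have hs := (hS b e hb).L (i + 1)
  rw [← Pool.Agent.Helper33.C2.pre_sub_step] at hs
  unfold Tg.h
  have e1 : i - (m - 1) = i + 1 - m := by ring
  have e2 : i + 1 - 1 = i := by ring
  rw [e1]
  rw [e2] at hs
  linarith

end basics

section asg

variable {J : Type} [DecidableEq J] (K : J → Prop) [DecidablePred K] (a : J → Tg)

theorem asg_update (n : J → ℤ) {k : J} (hk : K k) (m : ℤ) :
    asg K a (Function.update n k m) = Function.update (asg K a n) k (U m) := by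
  funext l
  by_cases h : l = k
  · subst h
    simp [asg, hk]
  · simp [asg, h, Function.update_of_ne]

theorem asg_new (n : J → ℤ) (k : J) (A : Tg) :
    asg (fun l => K l ∧ l ≠ k) (Function.update a k A) n =
      Function.update (asg K a n) k A := by
  funext l
  by_cases h : l = k
  · subst h
    simp [asg]
  · by_cases hK : K l
    · simp [asg, h, hK]
    · simp [asg, h, hK]

theorem upd_sub (n : J → ℤ) {k e : J} (h : e ≠ k) (m c : ℤ) :
    Function.update n k m - Pi.single e c = Function.update (n - Pi.single e c) k m := by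
  funext l
  by_cases h1 : l = k
  · subst h1
    have : l ≠ e := fun h2 => h h2.symm
    simp [Pi.single_eq_of_ne this]
  · simp [Function.update_of_ne h1]

theorem upd_sub_self (n : J → ℤ) (k : J) (m c : ℤ) :
    Function.update n k m - Pi.single k c = Function.update n k (m - c) := by
  funext l
  by_cases h1 : l = k
  · subst h1
    simp
  · simp [Function.update_of_ne h1, Pi.single_eq_of_ne h1]

omit [DecidableEq J] in
theorem asg_nonneg (hNN : GoalNonneg) (ha : ∀ l, (a l).Nonneg) (n : J → ℤ)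
    (hn : ∀ l, 0 ≤ n l) (l : J) : (asg K a n l).Nonneg := by
  unfold asg
  split_ifs
  · exact hNN.2 _ (hn l)
  · exact ha l

/-- `asg` at `n - single e c` as an update -/
theorem asg_sub (n : J → ℤ) {e : J} (he : K e) (c : ℤ) :
    asg K a (n - Pi.single e c) = Function.update (asg K a n) e (U (n e - c)) := by
  have h : n - Pi.single e c = Function.update n e (n e - c) := by
    conv_lhs => rw [← Function.update_eq_self e n]
    rw [upd_sub_self]
  rw [h, asg_update K a n he]

end asg

section dom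

variable {J : Type} [DecidableEq J] {Φ : (J → Tg) → ℝ[T;T⁻¹]} (K : J → Prop) [DecidablePred K]
  (a : J → Tg)

theorem dom1 (hA : Affine Φ) (hS : SlotNonneg Φ) (hCH : GoalCoefH) (hNN : GoalNonneg)
    (ha : ∀ l, (a l).Nonneg) (n : J → ℤ) (hn : ∀ l, 0 ≤ n l) {e : J} (he : K e) (i : ℤ) :
    (Φ (asg K a (n - Pi.single e 1))).coeff i ≤ (Φ (asg K a n)).coeff i := by
  have h := low1 Φ hA hS hCH (asg K a n) e (asg_nonneg K a hNN ha n hn) (n e) i
  rw [asg_sub K a n he 1]
  have h2 : Function.update (asg K a n) e (U (n e)) = asg K a n := by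
    rw [← asg_update K a n he, Function.update_eq_self]
  rw [h2] at h
  exact h

theorem dom2 (hA : Affine Φ) (hS : SlotNonneg Φ) (hCH : GoalCoefH) (hNN : GoalNonneg)
    (ha : ∀ l, (a l).Nonneg) (n : J → ℤ) (hn : ∀ l, 0 ≤ n l) {e : J} (he : K e) (i : ℤ) :
    (Φ (asg K a (n - Pi.single e 1))).coeff i ≤ (Φ (asg K a n)).coeff (i + 1) := by
  have h := low2 Φ hA hS hCH (asg K a n) e (asg_nonneg K a hNN ha n hn) (n e) i
  rw [asg_sub K a n he 1]
  have h2 : Function.update (asg K a n) e (U (n e)) = asg K a n := by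
    rw [← asg_update K a n he, Function.update_eq_self]
  rw [h2] at h
  exact h

theorem dom0 (hA : Affine Φ) (hS : SlotNonneg Φ) (hCH : GoalCoefH) (hNN : GoalNonneg)
    (ha : ∀ l, (a l).Nonneg) (n : J → ℤ) (hn : ∀ l, 0 ≤ n l) {e : J} (he : K e) (i : ℤ) :
    (Φ (asg K a (n - Pi.single e 2))).coeff i ≤
      (Φ (asg K a (n - Pi.single e 1))).coeff (i + 1) := by
  have h := low2 Φ hA hS hCH (asg K a n) e (asg_nonneg K a hNN ha n hn) (n e - 1) i
  rw [asg_sub K a n he 1, asg_sub K a n he 2]
  have e1 : n e - 1 - 1 = n e - 2 := by ring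
  rw [e1] at h
  exact h

theorem kwin_symm (n : J → ℤ) (i : ℤ) (d d' : Dir J) :
    kwin Φ K a n i d d' = kwin Φ K a n i d' d := by
  rcases d with _ | _ | k <;> rcases d' with _ | _ | l <;> try rfl
  by_cases h : k = l
  · subst h; rfl
  · have h' : ¬ (l = k) := fun e => h e.symm
    simp only [kwin, h, h', false_and, if_false]
    rw [sub_right_comm]

/-- bounds for the second order entries -/
theorem domG (hA : Affine Φ) (hS : SlotNonneg Φ) (hCH : GoalCoefH) (hNN : GoalNonneg)
    (ha : ∀ l, (a l).Nonneg) (n : J → ℤ) (hn : ∀ l, 0 ≤ n l) {e e' : J} (he : K e)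
    (he' : K e') (h1 : 1 ≤ n e) (h1' : 1 ≤ n e') (i : ℤ) :
    0 ≤ kwin Φ K a n i (.V e) (.V e') ∧
      kwin Φ K a n i (.V e) (.V e') ≤ (Φ (asg K a n)).coeff (i + 1) := by
  have hpos : ∀ n' : J → ℤ, (∀ l, 0 ≤ n' l) → ∀ j, 0 ≤ (Φ (asg K a n')).coeff j :=
    fun n' hn' j => val_nonneg Φ hA hS hNN e _ (asg_nonneg K a hNN ha n' hn') j
  have hn1 : ∀ l, 0 ≤ (n - Pi.single e 1 : J → ℤ) l := by
    intro l
    by_cases hl : l = e
    · subst hl; simp; omega
    · simp [Pi.single_eq_of_ne hl, hn l]
  by_cases hee : e = e'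
  · subst hee
    by_cases hne : n e = 1
    · simp only [kwin, hne, and_self, if_true]
      refine ⟨le_max_right _ _, max_le ?_ (hpos n hn _)⟩
      exact (dom0 K a hA hS hCH hNN ha n hn he i).trans
        (dom1 K a hA hS hCH hNN ha n hn he (i + 1))
    · have hc : ¬ (e = e ∧ n e = 1) := fun h => hne h.2
      simp only [kwin, hne, and_false, if_false]
      have hn2 : ∀ l, 0 ≤ (n - Pi.single e 1 - Pi.single e 1 : J → ℤ) l := by
        intro l
        by_cases hl : l = e
        · subst hl; simp; omega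
        · simp [Pi.single_eq_of_ne hl, hn l]
      refine ⟨hpos _ hn2 _, ?_⟩
      exact (dom2 K a hA hS hCH hNN ha _ hn1 he i).trans
        (dom1 K a hA hS hCH hNN ha n hn he (i + 1))
  · simp only [kwin, hee, false_and, if_false]
    have hn2 : ∀ l, 0 ≤ (n - Pi.single e 1 - Pi.single e' 1 : J → ℤ) l := by
      intro l
      by_cases hl : l = e
      · subst hl
        simp [Pi.single_eq_of_ne hee]; omega
      · by_cases hl' : l = e'
        · subst hl'
          simp [Pi.single_eq_of_ne hl]; omega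
        · simp [Pi.single_eq_of_ne hl, Pi.single_eq_of_ne hl', hn l]
    refine ⟨hpos _ hn2 _, ?_⟩
    exact (dom2 K a hA hS hCH hNN ha _ hn1 he' i).trans
      (dom1 K a hA hS hCH hNN ha n hn he (i + 1))

end dom

section fam

variable {J : Type} [DecidableEq J] (Φ : (J → Tg) → ℝ[T;T⁻¹]) (K : J → Prop) [DecidablePred K]
  (a : J → Tg) (n : J → ℤ) (k : J)

/-- the parameters of the family -/
abbrev Par := {l : J // K l ∧ l ≠ k ∧ 1 ≤ n l}

/-- the family seen by channel `k` -/
noncomputable def fam : Fam (Par K n k) where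
  S := slot Φ (asg K a n) k
  Se e := slot Φ (asg K a (n - Pi.single e.1 1)) k
  G e e' m j := kwin Φ K a (Function.update n k (m : ℤ)) j (.V e.1) (.V e'.1)

variable {Φ} {K} {n} {k}

theorem fam_S (hA : Affine Φ) (hCH : GoalCoefH) (hk : K k) (m j : ℤ) :
    (fam Φ K a n k).S.h m j = (Φ (asg K a (Function.update n k m))).coeff j := by
  rw [asg_update K a n hk, valU Φ hA hCH]
  rfl

theorem fam_Se (hA : Affine Φ) (hCH : GoalCoefH) (hk : K k) (e : Par K n k) (m j : ℤ) :
    ((fam Φ K a n k).Se e).h m j =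
      (Φ (asg K a (Function.update n k m - Pi.single e.1 1))).coeff j := by
  rw [upd_sub n e.2.2.1, asg_update K a _ hk, valU Φ hA hCH]
  rfl

theorem fam_good [Fintype J] (hA : Affine Φ) (hS : SlotNonneg Φ) (hCH : GoalCoefH)
    (hOP : GoalOpMap) (hNN : GoalNonneg) (ha : ∀ l, (a l).Nonneg) (hn : ∀ l, 0 ≤ n l)
    (hk : K k) (hP : Pos Φ K a) : (fam Φ K a n k).Good := by
  have hu : ∀ (m : ℕ) (l : J), 0 ≤ (Function.update n k (m : ℤ)) l := by
    intro m l
    by_cases h : l = k
    · subst h; simp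
    · simp [Function.update_of_ne h, hn l]
  refine ⟨?_, ?_, ?_, ?_, ?_⟩
  · exact hS _ k (asg_nonneg K a hNN ha n hn)
  · intro e e' m i
    exact kwin_symm (Φ := Φ) K a (Function.update n k (m : ℤ)) i (.V e.1) (.V e'.1)
  · intro e m i
    have hek : e.1 ≠ k := e.2.2.1
    rw [fam_Se a hA hCH hk, fam_S a hA hCH hk, fam_S a hA hCH hk]
    refine ⟨?_, dom1 K a hA hS hCH hNN ha _ (hu m) e.2.1 i,
      dom2 K a hA hS hCH hNN ha _ (hu m) e.2.1 i⟩
    refine val_nonneg Φ hA hS hNN k _ (asg_nonneg K a hNN ha _ ?_) i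
    intro l
    have h1 := e.2.2.2
    have h2 := hu m l
    by_cases hl : l = e.1
    · subst hl
      simp only [Pi.sub_apply, Pi.single_eq_same, Function.update_of_ne hek]
      omega
    · simp only [Pi.sub_apply, Pi.single_eq_of_ne hl, sub_zero]
      exact h2
  · intro e e' m i
    rw [fam_S a hA hCH hk]
    refine domG K a hA hS hCH hNN ha _ (hu m) e.2.1 e'.2.1 ?_ ?_ i
    · rw [Function.update_of_ne e.2.2.1]; exact e.2.2.2
    · rw [Function.update_of_ne e'.2.2.1]; exact e'.2.2.2
  · intro m i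
    have h := hP (Function.update n k (m : ℤ)) i (hu m)
    refine hOP (Dir J) (Dir (Option (Par K n k))) _ _ _ _
      (fun d => match d with
        | .X => .X
        | .Y => .Y
        | .V none => .V k
        | .V (some e) => .V e.1) h ?_ ?_
    · rintro (_ | _ | _ | e) hd
      · trivial
      · trivial
      · exact ⟨hk, by simpa using hd⟩
      · refine ⟨e.2.1, ?_⟩
        change 1 ≤ Function.update n k (m : ℤ) e.1
        rw [Function.update_of_ne e.2.2.1]
        exact e.2.2.2
    · have hne : ∀ e : Par K n k, k ≠ e.1 := fun e h => e.2.2.1 h.symm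
      rintro (_ | _ | _ | e) (_ | _ | _ | e') _ _ <;>
        simp only [Fam.win, kwin, fam_S a hA hCH hk, fam_Se a hA hCH hk, upd_sub_self,
          Function.update_self]
      · by_cases h1 : m = 1
        · subst h1
          simp
        · have h1' : ¬ ((m : ℤ) = 1) := by exact_mod_cast h1
          simp only [h1, h1', and_false, if_false]
          congr 3
          rw [sub_sub]
          norm_num
      · have h1 : ¬ (k = e'.1 ∧ (m : ℤ) = 1) := fun h => hne e' h.1
        simp only [h1, if_false]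
      · have h1 : ¬ (e.1 = k) := e.2.2.1
        simp only [h1, false_and, if_false]
        rw [sub_right_comm, upd_sub_self]
      · rfl

theorem fam_G (hA : Affine Φ) (hCH : GoalCoefH) (hk : K k) (e e' : Par K n k)
    (h : ¬ (e.1 = e'.1 ∧ n e.1 = 1)) (m : ℕ) (j : ℤ) :
    (fam Φ K a n k).G e e' m j =
      (slot Φ (asg K a (n - Pi.single e.1 1 - Pi.single e'.1 1)) k).h m j := by
  have h' : ¬ (e.1 = e'.1 ∧ Function.update n k (m : ℤ) e.1 = 1) := by
    rw [Function.update_of_ne e.2.2.1]; exact h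
  change kwin Φ K a (Function.update n k (m : ℤ)) j (.V e.1) (.V e'.1) = _
  simp only [kwin, h', if_false]
  rw [upd_sub n e.2.2.1, upd_sub _ e'.2.2.1, asg_update K a _ hk, valU Φ hA hCH]

theorem fam_G1 (hA : Affine Φ) (hCH : GoalCoefH) (hk : K k) (e : Par K n k)
    (h : n e.1 = 1) (m : ℕ) (j : ℤ) :
    (fam Φ K a n k).G e e m j =
      max ((slot Φ (asg K a (n - Pi.single e.1 2)) k).h m j) 0 := by
  have h' : Function.update n k (m : ℤ) e.1 = 1 := by
    rw [Function.update_of_ne e.2.2.1]; exact h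
  change kwin Φ K a (Function.update n k (m : ℤ)) j (.V e.1) (.V e.1) = _
  simp only [kwin, h', and_self, if_true]
  rw [upd_sub n e.2.2.1, asg_update K a _ hk, valU Φ hA hCH]

end fam

/-- the map of the directions -/
noncomputable def gmap {J : Type} [DecidableEq J] (K : J → Prop) [DecidablePred K] (n : J → ℤ)
    (k : J) : Dir J → Dir (Par K n k)
  | .X => .X
  | .Y => .Y
  | .V l => if h : K l ∧ l ≠ k ∧ 1 ≤ n l then .V ⟨l, h⟩ else .X

theorem gmap_V {J : Type} [DecidableEq J] (K : J → Prop) [DecidablePred K] (n : J → ℤ)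
    (k : J) (l : J) (h : K l ∧ l ≠ k ∧ 1 ≤ n l) : gmap K n k (.V l) = .V ⟨l, h⟩ := by
  simp [gmap, h]

theorem subst' : GoalSubst' := by
  intro hMT hCH hCM hOM hOP hNN J _ _ Φ hA hS K _ a k A ha hk hAH hP n i hn
  obtain ⟨r, hr⟩ := hMT (Par K n k) (fam Φ K a n k) A
    (fam_good a hA hS hCH hOP hNN ha hn hk hP) hAH i
  have h2 := hOP (Dir (Par K n k)) (Dir J) (fun _ => True)
    (fun d => match d with | .V l => (K l ∧ l ≠ k) ∧ 1 ≤ n l | _ => True)
    (pwin1 (fam Φ K a n k) A r i)
    (fun b c => pwin1 (fam Φ K a n k) A r i (gmap K n k b) (gmap K n k c))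
    (gmap K n k) hr (fun _ _ => trivial) (fun _ _ _ _ => rfl)
  have hval : ∀ n' : J → ℤ, (Φ (asg (fun l => K l ∧ l ≠ k) (Function.update a k A) n')) =
      ((slot Φ (asg K a n') k).mul A).F := by
    intro n'
    rw [asg_new, val Φ hA, mul_F_comm]
  have hcm : ∀ (n' : J → ℤ), ((slot Φ (asg K a n') k).mul A).F.coeff i =
      ∑ p ∈ r.m.support, r.m p * (slot Φ (asg K a n') k).h (p.2 - p.1) (i - p.1) := by
    intro n'
    rw [mul_F_comm, hCM A _ r i]
  have hnat : ∀ p ∈ r.m.support, (((p.2 - p.1).toNat : ℕ) : ℤ) = p.2 - p.1 := by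
    intro p hp
    have := r.le p (Finsupp.mem_support_iff.1 hp)
    omega
  have hal : ∀ l, (K l ∧ l ≠ k) ∧ 1 ≤ n l → K l ∧ l ≠ k ∧ 1 ≤ n l :=
    fun l h => ⟨h.1.1, h.1.2, h.2⟩
  refine hOM (Dir J) _ _ _ h2 ?_ ?_
  · rintro (_ | _ | l) (_ | _ | l') hb hc hne
    · exact absurd rfl hne
    · change (Φ _).coeff (i + 1) = (((fam Φ K a n k).S).mul A).F.coeff (i + 1)
      rw [hval]; rfl
    · have h' := hal l' hc
      change (Φ _).coeff (i + 1) = pwin1 (fam Φ K a n k) A r i .X (gmap K n k (.V l'))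
      rw [hval, gmap_V K n k l' h']; rfl
    · change (Φ _).coeff (i + 1) = (((fam Φ K a n k).S).mul A).F.coeff (i + 1)
      rw [hval]; rfl
    · exact absurd rfl hne
    · have h' := hal l' hc
      change (Φ _).coeff i = pwin1 (fam Φ K a n k) A r i .Y (gmap K n k (.V l'))
      rw [hval, gmap_V K n k l' h']; rfl
    · have h' := hal l hb
      change (Φ _).coeff (i + 1) = pwin1 (fam Φ K a n k) A r i (gmap K n k (.V l)) .X
      rw [hval, gmap_V K n k l h']; rfl
    · have h' := hal l hb
      change (Φ _).coeff i = pwin1 (fam Φ K a n k) A r i (gmap K n k (.V l)) .Y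
      rw [hval, gmap_V K n k l h']; rfl
    · have h' := hal l' hc
      have h := hal l hb
      have hll : ¬ (l = l' ∧ n l = 1) := fun e => hne (by rw [e.1])
      change _ = pwin1 (fam Φ K a n k) A r i (gmap K n k (.V l)) (gmap K n k (.V l'))
      rw [gmap_V K n k l h, gmap_V K n k l' h']
      simp only [kwin, hll, if_false, pwin1]
      rw [hval, hcm]
      refine Finset.sum_congr rfl fun p hp => ?_
      rw [fam_G a hA hCH hk _ _ hll, hnat p hp]
  · rintro (_ | _ | l) hb
    · change (Φ _).coeff (i + 2) ≤ (((fam Φ K a n k).S).mul A).F.coeff (i + 2)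
      rw [hval]; exact le_refl _
    · change (Φ _).coeff i ≤ (((fam Φ K a n k).S).mul A).F.coeff i
      rw [hval]; exact le_refl _
    · have h := hal l hb
      change _ ≤ pwin1 (fam Φ K a n k) A r i (gmap K n k (.V l)) (gmap K n k (.V l))
      rw [gmap_V K n k l h]
      by_cases h1 : n l = 1
      · simp only [kwin, h1, and_self, if_true, pwin1]
        rw [hval, hcm]
        refine max_le ?_ ?_
        · refine Finset.sum_le_sum fun p hp => ?_
          rw [fam_G1 a hA hCH hk _ h1, hnat p hp]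
          exact mul_le_mul_of_nonneg_left (le_max_left _ _) (r.nonneg p)
        · refine Finset.sum_nonneg fun p hp => ?_
          rw [fam_G1 a hA hCH hk _ h1]
          exact mul_nonneg (r.nonneg p) (le_max_right _ _)
      · simp only [kwin, h1, and_false, if_false, pwin1]
        rw [hval, hcm]
        refine le_of_eq (Finset.sum_congr rfl fun p hp => ?_)
        rw [fam_G a hA hCH hk _ _ (fun e => h1 e.2), hnat p hp]

end Pool.Agent.Helper70.C2
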